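import Mathlib

/-!
# MP_70d7ca_ag: a finite dimensional algebra with a modulus

`Alg l` is the algebra `ℂ[x₁,x₂,x₃,x₄] / (xᵢxⱼ (i ≠ j), x₃² - x₁² - x₂², x₄² - x₁² - l x₂²)` with the
basis `1, x₁, x₂, x₃, x₄, u = x₁², v = x₂²`.
-/

set_option autoImplicit false

namespace Pool.Agent.H919.PM

/-- The elements `c + p₁x₁ + p₂x₂ + p₃x₃ + p₄x₄ + u x₁² + v x₂²`. -/
@[ext] structure Alg (l : ℂ) where
  c : ℂ
  p1 : ℂ
  p2 : ℂ
  p3 : ℂ
  p4 : ℂ
  u : ℂ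
  v : ℂ

namespace Alg

variable {l : ℂ}

instance : Zero (Alg l) := ⟨⟨0, 0, 0, 0, 0, 0, 0⟩⟩
instance : One (Alg l) := ⟨⟨1, 0, 0, 0, 0, 0, 0⟩⟩
instance : Add (Alg l) := ⟨fun a b =>
  ⟨a.c + b.c, a.p1 + b.p1, a.p2 + b.p2, a.p3 + b.p3, a.p4 + b.p4, a.u + b.u, a.v + b.v⟩⟩
instance : Neg (Alg l) := ⟨fun a => ⟨-a.c, -a.p1, -a.p2, -a.p3, -a.p4, -a.u, -a.v⟩⟩
instance : Mul (Alg l) := ⟨fun a b =>
  ⟨a.c * b.c, a.c * b.p1 + a.p1 * b.c, a.c * b.p2 + a.p2 * b.c, a.c * b.p3 + a.p3 * b.c,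
    a.c * b.p4 + a.p4 * b.c,
    a.c * b.u + a.u * b.c + a.p1 * b.p1 + a.p3 * b.p3 + a.p4 * b.p4,
    a.c * b.v + a.v * b.c + a.p2 * b.p2 + a.p3 * b.p3 + l * (a.p4 * b.p4)⟩⟩

@[simp] theorem zero_c : (0 : Alg l).c = 0 := rfl
@[simp] theorem zero_p1 : (0 : Alg l).p1 = 0 := rfl
@[simp] theorem zero_p2 : (0 : Alg l).p2 = 0 := rfl
@[simp] theorem zero_p3 : (0 : Alg l).p3 = 0 := rfl
@[simp] theorem zero_p4 : (0 : Alg l).p4 = 0 := rfl
@[simp] theorem zero_u : (0 : Alg l).u = 0 := rfl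
@[simp] theorem zero_v : (0 : Alg l).v = 0 := rfl
@[simp] theorem one_c : (1 : Alg l).c = 1 := rfl
@[simp] theorem one_p1 : (1 : Alg l).p1 = 0 := rfl
@[simp] theorem one_p2 : (1 : Alg l).p2 = 0 := rfl
@[simp] theorem one_p3 : (1 : Alg l).p3 = 0 := rfl
@[simp] theorem one_p4 : (1 : Alg l).p4 = 0 := rfl
@[simp] theorem one_u : (1 : Alg l).u = 0 := rfl
@[simp] theorem one_v : (1 : Alg l).v = 0 := rfl

variable (a b : Alg l)

@[simp] theorem add_c : (a + b).c = a.c + b.c := rfl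
@[simp] theorem add_p1 : (a + b).p1 = a.p1 + b.p1 := rfl
@[simp] theorem add_p2 : (a + b).p2 = a.p2 + b.p2 := rfl
@[simp] theorem add_p3 : (a + b).p3 = a.p3 + b.p3 := rfl
@[simp] theorem add_p4 : (a + b).p4 = a.p4 + b.p4 := rfl
@[simp] theorem add_u : (a + b).u = a.u + b.u := rfl
@[simp] theorem add_v : (a + b).v = a.v + b.v := rfl
@[simp] theorem neg_c : (-a).c = -a.c := rfl
@[simp] theorem neg_p1 : (-a).p1 = -a.p1 := rfl
@[simp] theorem neg_p2 : (-a).p2 = -a.p2 := rfl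
@[simp] theorem neg_p3 : (-a).p3 = -a.p3 := rfl
@[simp] theorem neg_p4 : (-a).p4 = -a.p4 := rfl
@[simp] theorem neg_u : (-a).u = -a.u := rfl
@[simp] theorem neg_v : (-a).v = -a.v := rfl
@[simp] theorem mul_c : (a * b).c = a.c * b.c := rfl
@[simp] theorem mul_p1 : (a * b).p1 = a.c * b.p1 + a.p1 * b.c := rfl
@[simp] theorem mul_p2 : (a * b).p2 = a.c * b.p2 + a.p2 * b.c := rfl
@[simp] theorem mul_p3 : (a * b).p3 = a.c * b.p3 + a.p3 * b.c := rfl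
@[simp] theorem mul_p4 : (a * b).p4 = a.c * b.p4 + a.p4 * b.c := rfl
@[simp] theorem mul_u : (a * b).u =
    a.c * b.u + a.u * b.c + a.p1 * b.p1 + a.p3 * b.p3 + a.p4 * b.p4 := rfl
@[simp] theorem mul_v : (a * b).v =
    a.c * b.v + a.v * b.c + a.p2 * b.p2 + a.p3 * b.p3 + l * (a.p4 * b.p4) := rfl

instance : CommRing (Alg l) where
  add_assoc a b d := by ext <;> simp <;> ring
  zero_add a := by ext <;> simp
  add_zero a := by ext <;> simp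
  add_comm a b := by ext <;> simp <;> ring
  neg_add_cancel a := by ext <;> simp
  mul_assoc a b d := by ext <;> simp <;> ring
  one_mul a := by ext <;> simp
  mul_one a := by ext <;> simp
  zero_mul a := by ext <;> simp
  mul_zero a := by ext <;> simp
  left_distrib a b d := by ext <;> simp <;> ring
  right_distrib a b d := by ext <;> simp <;> ring
  mul_comm a b := by ext <;> simp <;> ring
  nsmul := nsmulRec
  zsmul := zsmulRec

/-- The inclusion of the scalars. -/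
def scalar (l : ℂ) : ℂ →+* Alg l where
  toFun c := ⟨c, 0, 0, 0, 0, 0, 0⟩
  map_zero' := rfl
  map_one' := rfl
  map_add' a b := by ext <;> simp
  map_mul' a b := by ext <;> simp

instance : Algebra ℂ (Alg l) := (scalar l).toAlgebra

theorem algebraMap_eq (c : ℂ) : algebraMap ℂ (Alg l) c = ⟨c, 0, 0, 0, 0, 0, 0⟩ := rfl

@[simp] theorem algebraMap_c (c : ℂ) : (algebraMap ℂ (Alg l) c).c = c := rfl
@[simp] theorem algebraMap_p1 (c : ℂ) : (algebraMap ℂ (Alg l) c).p1 = 0 := rfl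
@[simp] theorem algebraMap_p2 (c : ℂ) : (algebraMap ℂ (Alg l) c).p2 = 0 := rfl
@[simp] theorem algebraMap_p3 (c : ℂ) : (algebraMap ℂ (Alg l) c).p3 = 0 := rfl
@[simp] theorem algebraMap_p4 (c : ℂ) : (algebraMap ℂ (Alg l) c).p4 = 0 := rfl
@[simp] theorem algebraMap_u (c : ℂ) : (algebraMap ℂ (Alg l) c).u = 0 := rfl
@[simp] theorem algebraMap_v (c : ℂ) : (algebraMap ℂ (Alg l) c).v = 0 := rfl

/-- The elements `x₁, …, x₄` of the algebra. -/
def x1 : Alg l := ⟨0, 1, 0, 0, 0, 0, 0⟩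
@[inherit_doc x1] def x2 : Alg l := ⟨0, 0, 1, 0, 0, 0, 0⟩
@[inherit_doc x1] def x3 : Alg l := ⟨0, 0, 0, 1, 0, 0, 0⟩
@[inherit_doc x1] def x4 : Alg l := ⟨0, 0, 0, 0, 1, 0, 0⟩

end Alg

end Pool.Agent.H919.PM
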