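import Mathlib

/-!
# MP_70d7ca_ag: polarized families and the moduli stack of a class of polarized manifolds
-/

set_option autoImplicit false

open CategoryTheory AlgebraicGeometry Limits

namespace Pool.Agent.H919.PM

/-- The spectrum of a ring. -/
noncomputable abbrev SpecOf (K : Type) [CommRing K] : Scheme.{0} := Spec (CommRingCat.of K)

/-- The structure sheaf as a sheaf of modules. -/
noncomputable abbrev OO (X : Scheme.{0}) : X.Modules := SheafOfModules.unit X.ringCatSheaf

/-- The tensor product of sheaves of modules: the sheaf associated with `U ↦ M(U) ⊗ N(U)`. -/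
noncomputable def tensor {X : Scheme.{0}} (M N : X.Modules) : X.Modules :=
  (PresheafOfModules.sheafification (𝟙 X.ringCatSheaf.obj)).obj
    (MonoidalCategory.tensorObj (C := PresheafOfModules (X.presheaf ⋙ forget₂ CommRingCat RingCat))
      M.val N.val)

/-- The tensor powers of a sheaf of modules. -/
noncomputable def power {X : Scheme.{0}} (L : X.Modules) : ℕ → X.Modules
  | 0 => OO X
  | n + 1 => tensor (power L n) L

/-- `L` is an invertible sheaf. -/
def IsInvertible {X : Scheme.{0}} (L : X.Modules) : Prop :=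
  ∀ x : X, ∃ U : X.Opens, x ∈ U ∧ Nonempty (L.restrict U.ι ≅ OO U)

/-- The homomorphism `s` is an isomorphism over the open set `U`. -/
def IsIsoOn {X : Scheme.{0}} {M N : X.Modules} (s : M ⟶ N) (U : X.Opens) : Prop :=
  IsIso ((Scheme.Modules.restrictFunctor U.ι).map s)

/-- The invertible sheaf `L` on `X` is ample: `X` is quasi-compact and each point of `X` lies in an
affine set `X_s` for a global section `s` of a positive tensor power of `L`; here `X_s`, the set of
the points where `s` does not vanish, is the largest open set over which `s : 𝒪 ⟶ L ^ n` is an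
isomorphism. -/
def IsAmple {X : Scheme.{0}} (L : X.Modules) : Prop :=
  CompactSpace X ∧ ∀ x : X, ∃ n : ℕ, 0 < n ∧ ∃ (s : OO X ⟶ power L n) (U : X.Opens),
    x ∈ U ∧ IsAffineOpen U ∧ IsIsoOn s U ∧ ∀ V : X.Opens, IsIsoOn s V → V ≤ U

/-- The invertible sheaf `L` is `f`-ample: it is ample over the affine open sets of the base. -/
def IsRelAmple {X S : Scheme.{0}} (f : X ⟶ S) (L : X.Modules) : Prop :=
  ∀ V : S.Opens, IsAffineOpen V → IsAmple (L.restrict (f ⁻¹ᵁ V).ι)

/-- A polarized family over the scheme `S`: a smooth projective morphism `f : X ⟶ S` together with an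
`f`-ample invertible sheaf `L` (a proper morphism with an `f`-ample sheaf is projective). -/
structure Pol (S : Scheme.{0}) where
  X : Scheme.{0}
  f : X ⟶ S
  L : X.Modules
  smooth : Smooth f
  proper : IsProper f
  invertible : IsInvertible L
  ample : IsRelAmple f L

/-- `g` is an arrow of polarized families over `u : S' ⟶ S`: it identifies `X'` with the fibre product
of `X` and `S'` over `S`, and `g ^* L` is isomorphic to `L' ⊗ f' ^* B` for an invertible sheaf `B` on
`S'`. -/
def IsArrow {S' S : Scheme.{0}} (u : S' ⟶ S) (F' : Pol S') (F : Pol S) (g : F'.X ⟶ F.X) : Prop :=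
  IsPullback g F'.f F.f u ∧ ∃ B : S'.Modules, IsInvertible B ∧
    Nonempty ((Scheme.Modules.pullback g).obj F.L ≅
      tensor F'.L ((Scheme.Modules.pullback F'.f).obj B))

/-- A class of polarized manifolds: for each field `K` with a morphism `Spec K ⟶ Spec ℂ` a set of
polarized families over `Spec K`. (For a class of polarized manifolds over `ℂ` the sets for the
other fields `K` may be chosen according to any reading of the words geometric fibre.) -/
def Cls : Type 1 :=
  ∀ (K : Type) [Field K], (SpecOf K ⟶ SpecOf ℂ) → Set (Pol (SpecOf K))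

/-- Each geometric fibre of the polarized family `F` over the scheme `S` with structure morphism
`τ : S ⟶ Spec ℂ` is connected and belongs to the class `C`. -/
def FibresIn (C : Cls) {S : Scheme.{0}} (τ : S ⟶ SpecOf ℂ) (F : Pol S) : Prop :=
  ∀ (K : Type) [Field K] [IsAlgClosed K] (s : SpecOf K ⟶ S),
    ∃ F₀ : Pol (SpecOf K), ConnectedSpace F₀.X ∧ F₀ ∈ C K (s ≫ τ) ∧ ∃ g, IsArrow s F₀ F g

/-- The objects over the `ℂ`-scheme `S` of the moduli stack of the class `C`: the polarized families
over `S` such that each geometric fibre is connected and belongs to `C`. -/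
structure Obj (C : Cls) (S : Over (SpecOf ℂ)) where
  fam : Pol S.left
  fibres : FibresIn C S.hom fam

/-- The `ℂ`-scheme `Z` is the moduli stack of the class `C` (at least on the level of isomorphism
classes): there is a map `Φ` from the objects over `S` to the morphisms `S ⟶ Z`, for all `ℂ`-schemes
`S`, which is surjective and such that there is an arrow `F' ⟶ F` over `u : S' ⟶ S` if and only if
`Φ F' = u ≫ Φ F`. -/
def IsModuliOf (C : Cls) (Z : Over (SpecOf ℂ)) : Prop :=
  ∃ Φ : ∀ S : Over (SpecOf ℂ), Obj C S → (S ⟶ Z),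
    (∀ (S : Over (SpecOf ℂ)) (z : S ⟶ Z), ∃ F : Obj C S, Φ S F = z) ∧
    ∀ (S' S : Over (SpecOf ℂ)) (u : S' ⟶ S) (F' : Obj C S') (F : Obj C S),
      (∃ g, IsArrow u.left F'.fam F.fam g) ↔ Φ S' F' = u ≫ Φ S F

/-- The `ℂ`-scheme `Z` is a retract of the moduli stack of the class `C`: there are morphisms of
fibred categories `σ` from `Z` to the moduli stack and `Φ` from the moduli stack to `Z` such that
`Φ ∘ σ` is the identity. This holds if the moduli stack is isomorphic to `Z`, or to `Z × Y` for a
stack `Y` with a `ℂ`-point, for example to `[Z / G] = Z × BG` for a trivial action of a group `G`. -/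
def IsRetractOfModuli (C : Cls) (Z : Over (SpecOf ℂ)) : Prop :=
  ∃ (Φ : ∀ S : Over (SpecOf ℂ), Obj C S → (S ⟶ Z))
    (σ : ∀ S : Over (SpecOf ℂ), (S ⟶ Z) → Obj C S),
    (∀ (S : Over (SpecOf ℂ)) (z : S ⟶ Z), Φ S (σ S z) = z) ∧
    (∀ (S' S : Over (SpecOf ℂ)) (u : S' ⟶ S) (F' : Obj C S') (F : Obj C S),
      (∃ g, IsArrow u.left F'.fam F.fam g) → Φ S' F' = u ≫ Φ S F) ∧
    ∀ (S' S : Over (SpecOf ℂ)) (u : S' ⟶ S) (z : S ⟶ Z),
      ∃ g, IsArrow u.left (σ S' (u ≫ z)).fam (σ S z).fam g

/-- The spectrum of a `ℂ`-algebra, as a scheme over `ℂ`. -/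
noncomputable def specOver (A : Type) [CommRing A] [Algebra ℂ A] : Over (SpecOf ℂ) :=
  Over.mk (Spec.map (CommRingCat.ofHom (algebraMap ℂ A)))

end Pool.Agent.H919.PM
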