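import Mathlib

/-!
# MP_70d7ca_ag: derivations of the complex numbers
-/

set_option autoImplicit false

open Polynomial TrivSqZeroExt

namespace Pool.Agent.H919.PM

theorem smooth_char_zero (K L : Type) [Field K] [Field L] [Algebra K L] [CharZero K] :
    Algebra.FormallySmooth K L := by
  obtain ⟨s, hs⟩ := exists_isTranscendenceBasis K L
  have h1 := hs.isAlgebraic_field
  have : CharZero L := charZero_of_injective_algebraMap (algebraMap K L).injective
  exact Algebra.FormallySmooth.of_algebraicIndependent_of_isSeparable (v := ((↑) : s → L)) hs.1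

theorem exists_hom (l : ℂ) (hl : Transcendental ℚ l) :
    ∃ e : ℂ →+* DualNumber ℂ, (∀ c, (e c).fst = c) ∧ (e l).snd = 1 := by
  let a1 : Algebra ℚ[X] ℂ := (aeval l).toRingHom.toAlgebra
  let a2 : Algebra ℚ[X] (DualNumber ℂ) :=
    (aeval (TrivSqZeroExt.inl l + TrivSqZeroExt.inr 1 : DualNumber ℂ)).toRingHom.toAlgebra
  have hinj : Function.Injective (algebraMap ℚ[X] ℂ) := by
    have := transcendental_iff_injective.1 hl
    exact this
  have : FaithfulSMul ℚ[X] ℂ := (faithfulSMul_iff_algebraMap_injective _ _).2 hinj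
  let a3 : Algebra (FractionRing ℚ[X]) ℂ := FractionRing.liftAlgebra ℚ[X] ℂ
  have : IsScalarTower ℚ[X] (FractionRing ℚ[X]) ℂ := FractionRing.isScalarTower_liftAlgebra _ _
  have : CharZero (FractionRing ℚ[X]) :=
    charZero_of_injective_algebraMap (IsFractionRing.injective ℚ[X] (FractionRing ℚ[X]))
  have h1 : Algebra.FormallySmooth ℚ[X] (FractionRing ℚ[X]) :=
    Algebra.FormallySmooth.of_isLocalization (nonZeroDivisors ℚ[X])
  have h2 : Algebra.FormallySmooth (FractionRing ℚ[X]) ℂ := smooth_char_zero _ _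
  have h3 : Algebra.FormallySmooth ℚ[X] ℂ :=
    Algebra.FormallySmooth.comp ℚ[X] (FractionRing ℚ[X]) ℂ
  let g : DualNumber ℂ →ₐ[ℚ[X]] ℂ :=
    { (TrivSqZeroExt.fstHom ℂ ℂ ℂ).toRingHom with
      commutes' := by
        intro r
        have h : ((TrivSqZeroExt.fstHom ℂ ℂ ℂ).restrictScalars ℚ)
            (aeval (TrivSqZeroExt.inl l + TrivSqZeroExt.inr 1 : DualNumber ℂ) r) = aeval l r := by
          rw [← aeval_algHom_apply]
          congr 2
          simp
        exact h }
  have hg : Function.Surjective g := fun c => ⟨TrivSqZeroExt.inl c, rfl⟩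
  have hk : IsNilpotent (RingHom.ker (g : DualNumber ℂ →+* ℂ)) := by
    have h : RingHom.ker (g : DualNumber ℂ →+* ℂ) * RingHom.ker (g : DualNumber ℂ →+* ℂ) ≤ ⊥ := by
      rw [Ideal.mul_le]
      intro x hx y hy
      have hx1 : x.fst = 0 := hx
      have hy1 : y.fst = 0 := hy
      rw [Ideal.mem_bot]
      ext
      · simp [hx1]
      · simp [hx1, hy1]
    have h' : RingHom.ker (g : DualNumber ℂ →+* ℂ) ^ 2 =
        RingHom.ker (g : DualNumber ℂ →+* ℂ) * RingHom.ker (g : DualNumber ℂ →+* ℂ) := pow_two _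
    exact ⟨2, h'.trans (le_bot_iff.1 h)⟩
  let e := Algebra.FormallySmooth.liftOfSurjective (AlgHom.id ℚ[X] ℂ) g hg hk
  have he : ∀ c, g (e c) = c := fun c => by
    have := Algebra.FormallySmooth.liftOfSurjective_apply (AlgHom.id ℚ[X] ℂ) g hg hk c
    exact this
  refine ⟨e.toRingHom, fun c => he c, ?_⟩
  have h5 : e (algebraMap ℚ[X] ℂ X) = algebraMap ℚ[X] (DualNumber ℂ) X := e.commutes X
  have h6 : algebraMap ℚ[X] ℂ X = l := aeval_X l
  have h7 : algebraMap ℚ[X] (DualNumber ℂ) X =
    (TrivSqZeroExt.inl l + TrivSqZeroExt.inr 1 : DualNumber ℂ) := aeval_X _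
  rw [h6, h7] at h5
  show (e l).snd = 1
  rw [h5]
  simp

/-- For each transcendental number `l` there is a derivation of `ℂ` which does not vanish at `l`. -/
theorem exists_der (l : ℂ) (hl : Transcendental ℚ l) : ∃ δ : Derivation ℤ ℂ ℂ, δ l = 1 := by
  obtain ⟨e, he, hel⟩ := exists_hom l hl
  refine ⟨Derivation.mk' (AddMonoidHom.toIntLinearMap
    { toFun := fun c => (e c).snd
      map_zero' := by simp
      map_add' := fun a b => by simp }) fun a b => ?_, hel⟩
  show (e (a * b)).snd = a • (e b).snd + b • (e a).snd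
  rw [map_mul, TrivSqZeroExt.snd_mul, he a, he b]
  simp [mul_comm]

end Pool.Agent.H919.PM
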