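import Mathlib

/-!
# MP_70d7ca_ag: the algebra `ℂ[x₁, …, x₄] / (xᵢxⱼ (i < j), x₃² - x₁² - x₂², x₄² - x₁² - l x₂²)`
-/

set_option autoImplicit false

open MvPolynomial

namespace Pool.Agent.H919.PM

/-- The relations `xᵢxⱼ (i < j)`, `x₃² - x₁² - x₂²`, `x₄² - x₁² - l x₂²`. -/
noncomputable def rels (l : ℂ) : Set (MvPolynomial (Fin 4) ℂ) :=
  {X 0 * X 1, X 0 * X 2, X 0 * X 3, X 1 * X 2, X 1 * X 3, X 2 * X 3,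
    X 2 ^ 2 - X 0 ^ 2 - X 1 ^ 2, X 3 ^ 2 - X 0 ^ 2 - C l * X 1 ^ 2}

/-- The algebra `ℂ[x₁, …, x₄] / (xᵢxⱼ (i < j), x₃² - x₁² - x₂², x₄² - x₁² - l x₂²)`. -/
abbrev Quad (l : ℂ) : Type := MvPolynomial (Fin 4) ℂ ⧸ Ideal.span (rels l)

end Pool.Agent.H919.PM
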