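import Mathlib
import Pool.Agent.H919.PM.Alg
import Pool.Agent.H919.PM.Ring

/-!
# MP_70d7ca_ag: the algebra `ℂ[x₁, …, x₄] / (xᵢxⱼ (i < j), x₃² - x₁² - x₂², x₄² - x₁² - l x₂²)`
-/

set_option autoImplicit false

open MvPolynomial

namespace Pool.Agent.H919.PM

theorem rels_zero (l : ℂ) : ∀ p ∈ Ideal.span (rels l),
    (aeval ![Alg.x1, Alg.x2, Alg.x3, Alg.x4] : MvPolynomial (Fin 4) ℂ →ₐ[ℂ] Alg l) p = 0 := by
  intro p hp
  have h : Ideal.span (rels l) ≤ RingHom.ker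
      (aeval ![Alg.x1, Alg.x2, Alg.x3, Alg.x4] : MvPolynomial (Fin 4) ℂ →ₐ[ℂ] Alg l).toRingHom := by
    rw [Ideal.span_le]
    intro q hq
    simp only [rels, Set.mem_insert_iff, Set.mem_singleton_iff] at hq
    show (aeval ![Alg.x1, Alg.x2, Alg.x3, Alg.x4] : MvPolynomial (Fin 4) ℂ →ₐ[ℂ] Alg l) q = 0
    rcases hq with rfl | rfl | rfl | rfl | rfl | rfl | rfl | rfl <;>
      simp only [map_mul, map_sub, aeval_X, MvPolynomial.algHom_C, pow_two] <;>
      ext <;> simp [Alg.x1, Alg.x2, Alg.x3, Alg.x4, sub_eq_add_neg]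
  exact h hp

/-- The homomorphism to the algebra given by a basis. -/
noncomputable def toAlg (l : ℂ) : Quad l →+* Alg l :=
  Ideal.Quotient.lift (Ideal.span (rels l))
    (aeval ![Alg.x1, Alg.x2, Alg.x3, Alg.x4] : MvPolynomial (Fin 4) ℂ →ₐ[ℂ] Alg l).toRingHom
    (rels_zero l)

/-- The class of a variable. -/
noncomputable def y (l : ℂ) (i : Fin 4) : Quad l := Ideal.Quotient.mk _ (X i)

theorem toAlg_y (l : ℂ) (i : Fin 4) :
    toAlg l (y l i) = (![Alg.x1, Alg.x2, Alg.x3, Alg.x4] : Fin 4 → Alg l) i := by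
  show (aeval ![Alg.x1, Alg.x2, Alg.x3, Alg.x4] : MvPolynomial (Fin 4) ℂ →ₐ[ℂ] Alg l) (X i) = _
  rw [aeval_X]

theorem toAlg_algebraMap (l c : ℂ) : toAlg l (algebraMap ℂ (Quad l) c) = algebraMap ℂ (Alg l) c := by
  show (aeval ![Alg.x1, Alg.x2, Alg.x3, Alg.x4] : MvPolynomial (Fin 4) ℂ →ₐ[ℂ] Alg l) (C c) = _
  exact MvPolynomial.algHom_C _ _

theorem mk_rel (l : ℂ) {p : MvPolynomial (Fin 4) ℂ} (hp : p ∈ rels l) :
    (Ideal.Quotient.mk (Ideal.span (rels l)) p : Quad l) = 0 :=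
  Ideal.Quotient.eq_zero_iff_mem.2 (Ideal.subset_span hp)

/-- A derivation of the algebra kills the parameter `l`. -/
theorem quad_deriv_zero (l : ℂ) (D : Derivation ℤ (Quad l) (Quad l)) (d : ℂ)
    (hd : D (algebraMap ℂ (Quad l) l) = algebraMap ℂ (Quad l) d) : d = 0 := by
  have h22 : y l 2 * y l 2 = y l 0 * y l 0 + y l 1 * y l 1 := by
    have h := mk_rel l (p := X 2 ^ 2 - X 0 ^ 2 - X 1 ^ 2) (by simp [rels])
    rw [map_sub, map_sub, map_pow, map_pow, map_pow] at h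
    have h' : y l 2 ^ 2 - y l 0 ^ 2 - y l 1 ^ 2 = 0 := h
    linear_combination h'
  have h33 : y l 3 * y l 3 = y l 0 * y l 0 + algebraMap ℂ (Quad l) l * (y l 1 * y l 1) := by
    have h := mk_rel l (p := X 3 ^ 2 - X 0 ^ 2 - C l * X 1 ^ 2) (by simp [rels])
    rw [map_sub, map_sub, map_mul, map_pow, map_pow, map_pow] at h
    have h' : y l 3 ^ 2 - y l 0 ^ 2 - algebraMap ℂ (Quad l) l * y l 1 ^ 2 = 0 := h
    linear_combination h'
  have e22 := congrArg (fun t => toAlg l (D t)) h22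
  have e33 := congrArg (fun t => toAlg l (D t)) h33
  simp only [Derivation.leibniz, map_zero, map_add, map_mul, smul_eq_mul, hd, toAlg_y,
    toAlg_algebraMap] at e22 e33
  generalize toAlg l (D (y l 0)) = d1 at *
  generalize toAlg l (D (y l 1)) = d2 at *
  generalize toAlg l (D (y l 2)) = d3 at *
  generalize toAlg l (D (y l 3)) = d4 at *
  have b1 := congrArg Alg.u e22
  have b2 := congrArg Alg.v e22
  have b3 := congrArg Alg.u e33
  have b4 := congrArg Alg.v e33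
  simp [Alg.x1, Alg.x2, Alg.x3, Alg.x4] at b1 b2 b3 b4
  linear_combination -b4 + l * b3 - l * b1 + l * b2

end Pool.Agent.H919.PM
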