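import Mathlib
import Pool.Agent.H919.PM.Defs
import Pool.Agent.H919.PM.Quo
import Pool.Agent.H919.PM.Der

/-!
# MP_70d7ca_ag: derivations of `ℂ` lift to the moduli spaces of polarized manifolds
-/

set_option autoImplicit false

open CategoryTheory AlgebraicGeometry Limits

namespace Pool.Agent.H919.PM

/-- A stack isomorphic to `Z` has `Z` as a retract. -/
theorem IsModuliOf.retract {C : Cls} {Z : Over (SpecOf ℂ)} (h : IsModuliOf C Z) :
    IsRetractOfModuli C Z := by
  obtain ⟨Φ, hs, ha⟩ := h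
  choose σ hσ using hs
  refine ⟨Φ, σ, hσ, fun S' S u F' F h => (ha S' S u F' F).1 h, fun S' S u z => ?_⟩
  exact (ha S' S u _ _).2 (by rw [hσ, hσ])

theorem spec_comp {A B D : Type} [CommRing A] [CommRing B] [CommRing D] (f : A →+* B)
    (g : B →+* D) : Spec.map (CommRingCat.ofHom g) ≫ Spec.map (CommRingCat.ofHom f) =
      Spec.map (CommRingCat.ofHom (g.comp f)) := by
  rw [← Spec.map_comp, ← CommRingCat.ofHom_comp]

section

variable (A : Type) [CommRing A] [Algebra ℂ A] (δ : Derivation ℤ ℂ ℂ)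

/-- The twisted structure homomorphism `c ↦ c + ε δ(c)`. -/
noncomputable def iota : ℂ →+* DualNumber A where
  toFun c := TrivSqZeroExt.inl (algebraMap ℂ A c) + TrivSqZeroExt.inr (algebraMap ℂ A (δ c))
  map_zero' := by simp
  map_one' := by simp
  map_add' a b := by
    ext
    · simp
    · simp only [map_add, TrivSqZeroExt.snd_add, TrivSqZeroExt.snd_inl, TrivSqZeroExt.snd_inr,
        zero_add]
  map_mul' a b := by
    ext
    · simp
    · simp only [Derivation.leibniz, smul_eq_mul, map_add, map_mul, TrivSqZeroExt.snd_add,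
        TrivSqZeroExt.snd_inl, TrivSqZeroExt.snd_inr, zero_add, TrivSqZeroExt.snd_mul,
        TrivSqZeroExt.fst_add, TrivSqZeroExt.fst_inl, TrivSqZeroExt.fst_inr, add_zero,
        MulOpposite.smul_eq_mul_unop, MulOpposite.unop_op]
      ring

theorem iota_apply (c : ℂ) : iota A δ c =
    TrivSqZeroExt.inl (algebraMap ℂ A c) + TrivSqZeroExt.inr (algebraMap ℂ A (δ c)) := rfl

/-- The inclusion of the constants. -/
noncomputable def inlH : A →+* DualNumber A where
  toFun a := TrivSqZeroExt.inl a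
  map_zero' := TrivSqZeroExt.inl_zero _
  map_one' := TrivSqZeroExt.inl_one _
  map_add' a b := TrivSqZeroExt.inl_add _ a b
  map_mul' a b := TrivSqZeroExt.inl_mul _ a b

theorem inlH_apply (a : A) : inlH A a = TrivSqZeroExt.inl a := rfl

/-- The reduction modulo `ε`. -/
noncomputable def fstH : DualNumber A →+* A where
  toFun a := TrivSqZeroExt.fst a
  map_zero' := TrivSqZeroExt.fst_zero
  map_one' := TrivSqZeroExt.fst_one
  map_add' a b := TrivSqZeroExt.fst_add a b
  map_mul' a b := TrivSqZeroExt.fst_mul a b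

theorem fstH_apply (a : DualNumber A) : fstH A a = a.fst := rfl

theorem fst_inl : (fstH A).comp (inlH A) = RingHom.id A := by
  refine RingHom.ext fun a => ?_
  rw [RingHom.comp_apply, inlH_apply, fstH_apply, TrivSqZeroExt.fst_inl, RingHom.id_apply]

theorem fst_iota : (fstH A).comp (iota A δ) = algebraMap ℂ A := by
  refine RingHom.ext fun c => ?_
  rw [RingHom.comp_apply, iota_apply, fstH_apply, TrivSqZeroExt.fst_add, TrivSqZeroExt.fst_inl,
    TrivSqZeroExt.fst_inr, add_zero]

/-- The untwisted structure homomorphism. -/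
noncomputable def iota0 : ℂ →+* DualNumber A := (inlH A).comp (algebraMap ℂ A)

theorem fst_iota0 : (fstH A).comp (iota0 A) = algebraMap ℂ A := by
  rw [iota0, ← RingHom.comp_assoc, fst_inl, RingHom.id_comp]

noncomputable def S0 : Over (SpecOf ℂ) := Over.mk (Spec.map (CommRingCat.ofHom (iota0 A)))

noncomputable def S1 : Over (SpecOf ℂ) := Over.mk (Spec.map (CommRingCat.ofHom (iota A δ)))

noncomputable def pr : S0 A ⟶ specOver A :=
  Over.homMk (Spec.map (CommRingCat.ofHom (inlH A))) (spec_comp _ _)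

theorem in0_w : Spec.map (CommRingCat.ofHom (fstH A)) ≫ Spec.map (CommRingCat.ofHom (iota0 A)) =
    Spec.map (CommRingCat.ofHom (algebraMap ℂ A)) := by
  rw [spec_comp, fst_iota0]

theorem in1_w : Spec.map (CommRingCat.ofHom (fstH A)) ≫ Spec.map (CommRingCat.ofHom (iota A δ)) =
    Spec.map (CommRingCat.ofHom (algebraMap ℂ A)) := by
  rw [spec_comp, fst_iota]

noncomputable def in0 : specOver A ⟶ S0 A :=
  Over.homMk (Spec.map (CommRingCat.ofHom (fstH A))) (in0_w A)

noncomputable def in1 : specOver A ⟶ S1 A δ :=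
  Over.homMk (Spec.map (CommRingCat.ofHom (fstH A))) (in1_w A δ)

theorem spec_fst_inl : Spec.map (CommRingCat.ofHom (fstH A)) ≫
    Spec.map (CommRingCat.ofHom (inlH A)) = 𝟙 (SpecOf A) := by
  rw [spec_comp, fst_inl]
  exact Spec.map_id _

theorem in0_pr : in0 A ≫ pr A = 𝟙 (specOver A) := Over.OverMorphism.ext (spec_fst_inl A)

theorem hom_inr {K : Type} [Field K] (φ : DualNumber A →+* K) (a : A) :
    φ (TrivSqZeroExt.inr a) = 0 := by
  have h1 : (TrivSqZeroExt.inr a : DualNumber A) * TrivSqZeroExt.inr a = 0 :=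
    TrivSqZeroExt.inr_mul_inr _ _ _
  have h2 := congrArg φ h1
  rw [map_mul, map_zero] at h2
  exact mul_self_eq_zero.1 h2

theorem geom_ring {K : Type} [Field K] (φ : DualNumber A →+* K) :
    φ.comp (iota0 A) = φ.comp (iota A δ) := by
  refine RingHom.ext fun c => ?_
  rw [RingHom.comp_apply, RingHom.comp_apply, iota_apply, map_add, hom_inr, add_zero, iota0,
    RingHom.comp_apply, inlH_apply]

/-- A geometric point does not see the twist. -/
theorem geom_eq {K : Type} [Field K] (s : SpecOf K ⟶ SpecOf (DualNumber A)) :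
    s ≫ Spec.map (CommRingCat.ofHom (iota0 A)) = s ≫ Spec.map (CommRingCat.ofHom (iota A δ)) := by
  obtain ⟨φ, rfl⟩ := Spec.map_surjective s
  have h1 : φ = CommRingCat.ofHom φ.hom := (CommRingCat.ofHom_hom φ).symm
  rw [h1, spec_comp, spec_comp, geom_ring A δ φ.hom]

theorem fibres_twist {C : Cls} (F : Pol (SpecOf (DualNumber A)))
    (h : FibresIn C (Spec.map (CommRingCat.ofHom (iota0 A))) F) :
    FibresIn C (Spec.map (CommRingCat.ofHom (iota A δ))) F := by
  intro K _ _ s
  obtain ⟨F₀, h1, h2, h3⟩ := h K s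
  refine ⟨F₀, h1, ?_, h3⟩
  rw [← geom_eq A δ s]
  exact h2

/-- The family of an object over `S0`. -/
def famT {C : Cls} (F : Obj C (S0 A)) : Pol (SpecOf (DualNumber A)) := F.fam

theorem famT_fibres {C : Cls} (F : Obj C (S0 A)) :
    FibresIn C (Spec.map (CommRingCat.ofHom (iota0 A))) (famT A F) := F.fibres

/-- An object over `S1`. -/
def mkT {C : Cls} (F : Pol (SpecOf (DualNumber A)))
    (h : FibresIn C (Spec.map (CommRingCat.ofHom (iota A δ))) F) : Obj C (S1 A δ) where
  fam := F
  fibres := h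

/-- The closed immersion `Spec A ⟶ Spec A[ε]`. -/
noncomputable def imm : SpecOf A ⟶ SpecOf (DualNumber A) := Spec.map (CommRingCat.ofHom (fstH A))

theorem arrow0 {C : Cls} (U : Obj C (specOver A)) (F : Obj C (S0 A))
    (h : ∃ g, IsArrow (in0 A).left U.fam F.fam g) :
    ∃ g, IsArrow (imm A) (S' := SpecOf A) U.fam (famT A F) g := h

theorem arrow1 {C : Cls} (U : Obj C (specOver A)) (F : Pol (SpecOf (DualNumber A)))
    (hF : FibresIn C (Spec.map (CommRingCat.ofHom (iota A δ))) F)
    (h : ∃ g, IsArrow (imm A) (S' := SpecOf A) U.fam F g) :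
    ∃ g, IsArrow (in1 A δ).left U.fam (mkT A δ F hF).fam g := h

theorem ring_part (ψ : A →+* DualNumber A) (h4 : (fstH A).comp ψ = RingHom.id A)
    (h5 : ψ.comp (algebraMap ℂ A) = iota A δ) :
    ∃ D : Derivation ℤ A A, ∀ c, D (algebraMap ℂ A c) = algebraMap ℂ A (δ c) := by
  have h6 : ∀ a : A, (ψ a).fst = a := fun a => RingHom.congr_fun h4 a
  have h7 : ∀ c : ℂ, ψ (algebraMap ℂ A c) = iota A δ c := fun c => RingHom.congr_fun h5 c
  refine ⟨Derivation.mk' (AddMonoidHom.toIntLinearMap
    { toFun := fun a => (ψ a).snd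
      map_zero' := by simp
      map_add' := fun a b => by simp }) fun a b => ?_, fun c => ?_⟩
  · show (ψ (a * b)).snd = a • (ψ b).snd + b • (ψ a).snd
    rw [map_mul, TrivSqZeroExt.snd_mul, h6 a, h6 b]
    simp [mul_comm]
  · show (ψ (algebraMap ℂ A c)).snd = _
    rw [h7, iota_apply, TrivSqZeroExt.snd_add, TrivSqZeroExt.snd_inl, TrivSqZeroExt.snd_inr,
      zero_add]

theorem scheme_part (z : SpecOf (DualNumber A) ⟶ SpecOf A)
    (h3 : 𝟙 (SpecOf A) = Spec.map (CommRingCat.ofHom (fstH A)) ≫ z)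
    (hz : z ≫ Spec.map (CommRingCat.ofHom (algebraMap ℂ A)) =
      Spec.map (CommRingCat.ofHom (iota A δ))) :
    ∃ D : Derivation ℤ A A, ∀ c, D (algebraMap ℂ A c) = algebraMap ℂ A (δ c) := by
  obtain ⟨ψ, rfl⟩ := Spec.map_surjective z
  have h1 : ψ = CommRingCat.ofHom ψ.hom := (CommRingCat.ofHom_hom ψ).symm
  rw [h1, spec_comp] at h3 hz
  refine ring_part A δ ψ.hom ?_ ?_
  · rw [← Spec.map_id] at h3
    have h4 := congrArg CommRingCat.Hom.hom (Spec.map_injective h3)
    rw [CommRingCat.hom_ofHom, CommRingCat.hom_id] at h4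
    exact h4.symm
  · have h4 := congrArg CommRingCat.Hom.hom (Spec.map_injective hz)
    rwa [CommRingCat.hom_ofHom, CommRingCat.hom_ofHom] at h4

theorem final_part (z : S1 A δ ⟶ specOver A) (h3 : 𝟙 (specOver A) = in1 A δ ≫ z) :
    ∃ D : Derivation ℤ A A, ∀ c, D (algebraMap ℂ A c) = algebraMap ℂ A (δ c) :=
  scheme_part A δ z.left (congrArg (fun t => t.left) h3) (Over.w z)

/-- Each derivation of `ℂ` extends to `A` if `Spec A` is a retract of the moduli stack of a class of
polarized manifolds. -/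
theorem lift_derivation {C : Cls} (h : IsRetractOfModuli C (specOver A)) :
    ∃ D : Derivation ℤ A A, ∀ c, D (algebraMap ℂ A c) = algebraMap ℂ A (δ c) := by
  obtain ⟨Φ, σ, hs, ha, hσ⟩ := h
  have hF := fibres_twist A δ _ (famT_fibres A (σ _ (pr A)))
  have h2 := arrow1 A δ (σ _ (in0 A ≫ pr A)) (famT A (σ _ (pr A))) hF
    (arrow0 A _ _ (hσ _ _ (in0 A) (pr A)))
  have h3 := ha _ _ (in1 A δ) _ _ h2
  rw [hs, in0_pr] at h3
  generalize Φ _ (mkT A δ (famT A (σ _ (pr A))) hF) = z at h3
  exact final_part A δ z h3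

end

theorem not_moduli (l : ℂ) (hl : Transcendental ℚ l) (C : Cls) :
    ¬ IsRetractOfModuli C (specOver (Quad l)) := by
  intro h
  obtain ⟨δ, hδ⟩ := exists_der l hl
  obtain ⟨D, hD⟩ := lift_derivation (Quad l) δ h
  have h1 := quad_deriv_zero l D (δ l) (hD l)
  rw [hδ] at h1
  exact one_ne_zero h1

end Pool.Agent.H919.PM
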