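import Mathlib
import Pool.Agent.H919.PM.Main

/-!
# MP_70d7ca_ag: four lines through the origin of the plane

A reduced affine curve which is not a moduli stack of polarized manifolds.
-/

set_option autoImplicit false

open MvPolynomial

namespace Pool.Agent.H919.PM

/-- The first coordinates of the vectors `(0,1)`, `(1,0)`, `(1,1)`, `(l,1)`. -/
def dirx (l : ℂ) : Fin 4 → ℂ := ![0, 1, 1, l]

/-- The second coordinates of the vectors `(0,1)`, `(1,0)`, `(1,1)`, `(l,1)`. -/
def diry : Fin 4 → ℂ := ![1, 0, 1, 1]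

/-- The restriction of the polynomials in two variables to the four lines spanned by `(0,1)`, `(1,0)`,
`(1,1)`, `(l,1)`: the polynomial `p(x,y)` is sent to the four polynomials `p(a t, b t)`, where `(a,b)` is
one of the four vectors. -/
noncomputable def restr (l : ℂ) : MvPolynomial (Fin 2) ℂ →ₐ[ℂ] (Fin 4 → Polynomial ℂ) :=
  aeval ![fun k => Polynomial.C (dirx l k) * Polynomial.X, fun k => Polynomial.C (diry k) * Polynomial.X]

/-- The coordinate ring of the union of the four lines spanned by `(0,1)`, `(1,0)`, `(1,1)`, `(l,1)`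
in the plane. -/
abbrev Lines (l : ℂ) : Type := MvPolynomial (Fin 2) ℂ ⧸ RingHom.ker (restr l)

/-- The embedding of the coordinate ring. -/
noncomputable def emb (l : ℂ) : Lines l →+* (Fin 4 → Polynomial ℂ) :=
  RingHom.kerLift (restr l).toRingHom

theorem emb_inj (l : ℂ) : Function.Injective (emb l) := RingHom.kerLift_injective _

theorem lines_reduced (l : ℂ) : IsReduced (Lines l) := isReduced_of_injective (emb l) (emb_inj l)

/-- The class of a variable. -/
noncomputable def yy (l : ℂ) (i : Fin 2) : Lines l := Ideal.Quotient.mk _ (X i)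

theorem emb_mk (l : ℂ) (p : MvPolynomial (Fin 2) ℂ) :
    emb l (Ideal.Quotient.mk _ p) = restr l p := rfl

theorem restr_X0 (l : ℂ) (k : Fin 4) :
    restr l (X 0) k = Polynomial.C (dirx l k) * Polynomial.X := by
  rw [restr, aeval_X]
  rfl

theorem restr_X1 (l : ℂ) (k : Fin 4) :
    restr l (X 1) k = Polynomial.C (diry k) * Polynomial.X := by
  rw [restr, aeval_X]
  rfl

theorem restr_C (l a : ℂ) (k : Fin 4) : restr l (C a) k = Polynomial.C a := by
  rw [restr, MvPolynomial.algHom_C]
  rfl

theorem emb_algebraMap (l c : ℂ) (k : Fin 4) : emb l (algebraMap ℂ (Lines l) c) k =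
    Polynomial.C c := restr_C l c k

/-- The linear part of the restriction of a polynomial. -/
theorem linear_part (l : ℂ) (p : MvPolynomial (Fin 2) ℂ) : ∃ c a b : ℂ, ∀ k : Fin 4,
    (restr l p k).coeff 0 = c ∧ (restr l p k).coeff 1 = a * dirx l k + b * diry k := by
  induction p using MvPolynomial.induction_on with
  | C a =>
    refine ⟨a, 0, 0, fun k => ?_⟩
    rw [restr_C]
    simp [Polynomial.coeff_C]
  | add p q hp hq =>
    obtain ⟨c, a, b, h⟩ := hp
    obtain ⟨c', a', b', h'⟩ := hq
    refine ⟨c + c', a + a', b + b', fun k => ?_⟩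
    rw [map_add, Pi.add_apply, Polynomial.coeff_add, Polynomial.coeff_add, (h k).1, (h k).2,
      (h' k).1, (h' k).2]
    exact ⟨rfl, by ring⟩
  | mul_X p i hp =>
    obtain ⟨c, a, b, h⟩ := hp
    fin_cases i
    · refine ⟨0, c, 0, fun k => ?_⟩
      show (restr l (p * X 0) k).coeff 0 = 0 ∧ (restr l (p * X 0) k).coeff 1 = _
      rw [map_mul, Pi.mul_apply, restr_X0, ← mul_assoc]
      refine ⟨by simp, ?_⟩
      rw [Polynomial.coeff_mul_X, Polynomial.coeff_mul_C, (h k).1]
      ring
    · refine ⟨0, 0, c, fun k => ?_⟩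
      show (restr l (p * X 1) k).coeff 0 = 0 ∧ (restr l (p * X 1) k).coeff 1 = _
      rw [map_mul, Pi.mul_apply, restr_X1, ← mul_assoc]
      refine ⟨by simp, ?_⟩
      rw [Polynomial.coeff_mul_X, Polynomial.coeff_mul_C, (h k).1]
      ring

theorem linear_part' (l : ℂ) (z : Lines l) : ∃ a b : ℂ, ∀ k : Fin 4,
    (emb l z k).coeff 1 = a * dirx l k + b * diry k := by
  obtain ⟨p, rfl⟩ := Ideal.Quotient.mk_surjective z
  obtain ⟨c, a, b, h⟩ := linear_part l p
  exact ⟨a, b, fun k => (h k).2⟩

theorem four_lines (l : ℂ) :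
    yy l 0 * (yy l 1 * ((yy l 0 - yy l 1) * (yy l 0 - algebraMap ℂ (Lines l) l * yy l 1))) = 0 := by
  apply emb_inj l
  funext k
  simp only [map_mul, map_sub, map_zero, Pi.mul_apply, Pi.sub_apply, Pi.zero_apply, yy, emb_mk,
    restr_X0, restr_X1, emb_algebraMap]
  fin_cases k <;> simp [dirx, diry]

/-- A derivation of the coordinate ring kills the parameter `l`. -/
theorem lines_deriv_zero (l : ℂ) (h0 : l ≠ 0) (h1 : l ≠ 1) (D : Derivation ℤ (Lines l) (Lines l))
    (d : ℂ) (hd : D (algebraMap ℂ (Lines l) l) = algebraMap ℂ (Lines l) d) : d = 0 := by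
  have e := congrArg (fun t => emb l (D t)) (four_lines l)
  obtain ⟨a, b, hP⟩ := linear_part' l (D (yy l 0))
  obtain ⟨a', b', hQ⟩ := linear_part' l (D (yy l 1))
  have ex : ∀ k, emb l (yy l 0) k = Polynomial.C (dirx l k) * Polynomial.X := fun k => restr_X0 l k
  have ey : ∀ k, emb l (yy l 1) k = Polynomial.C (diry k) * Polynomial.X := fun k => restr_X1 l k
  simp only [Derivation.leibniz, map_zero, map_sub, map_add, map_mul, smul_eq_mul, hd] at e
  generalize emb l (D (yy l 0)) = P at *
  generalize emb l (D (yy l 1)) = Q at *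
  have e0 := congrFun e 0
  have e1 := congrFun e 1
  have e2 := congrFun e 2
  have e3 := congrFun e 3
  simp only [Pi.mul_apply, Pi.sub_apply, Pi.add_apply, Pi.zero_apply, ex, ey, emb_algebraMap, dirx,
    diry] at e0 e1 e2 e3
  clear e ex ey hd
  simp [h0] at e0 e1 e2 e3
  have g2 : P 2 - Q 2 = 0 := by
    refine e2.resolve_left fun h => h1 ?_
    have h2 := congrArg (fun t => Polynomial.coeff t 1) h
    simp at h2
    exact (sub_eq_zero.1 h2).symm
  have g3 : P 3 - (Polynomial.C l * Q 3 + Polynomial.C d * Polynomial.X) = 0 := by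
    refine e3.resolve_left fun h => h1 ?_
    have h2 := congrArg (fun t => Polynomial.coeff t 1) h
    simp at h2
    exact sub_eq_zero.1 h2
  have p0 := hP 0
  have q1 := hQ 1
  have c2 := congrArg (fun t => Polynomial.coeff t 1) g2
  have c3 := congrArg (fun t => Polynomial.coeff t 1) g3
  rw [e0] at p0
  rw [e1] at q1
  simp only [Polynomial.coeff_sub, Polynomial.coeff_add, Polynomial.coeff_C_mul, hP, hQ,
    Polynomial.coeff_X_one, Polynomial.coeff_zero] at c2 c3
  simp [dirx, diry] at p0 q1 c2 c3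
  subst p0 q1
  linear_combination -c3 + l * c2

theorem lines_not_moduli (l : ℂ) (hl : Transcendental ℚ l) (C : Cls) :
    ¬ IsRetractOfModuli C (specOver (Lines l)) := by
  intro h
  obtain ⟨δ, hδ⟩ := exists_der l hl
  obtain ⟨D, hD⟩ := lift_derivation (Lines l) δ h
  have h0 : l ≠ 0 := fun h => hl (h ▸ isAlgebraic_zero)
  have h1 : l ≠ 1 := fun h => hl (h ▸ isAlgebraic_one)
  have h2 := lines_deriv_zero l h0 h1 D (δ l) (hD l)
  rw [hδ] at h2
  exact one_ne_zero h2

end Pool.Agent.H919.PM
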